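import Pool.Agent.X239.CV.Alg
set_option autoImplicit false

/-!
# The path of the rule, and the bound for its length
-/

namespace Pool.Agent.X239.CV

open Set Pool.Agent.Y644.QS Pool.Agent.Y644.QW Pool.Agent.H687R2.LLL Pool.Agent.NPC
  Pool.Agent.NPC.H532.RP

variable {m n : ℕ}

/-- The rows of the linear program as functionals. -/
noncomputable def aR (A : Fin m → Fin n → ℚ) : Fin m ⊕ Fin n → (Fin n → ℝ) →ₗ[ℝ] ℝ
  | Sum.inl i => ∑ j, (A i j : ℝ) • LinearMap.proj j
  | Sum.inr j => - LinearMap.proj j

/-- The right-hand sides. -/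
noncomputable def bR (b : Fin m → ℚ) : Fin m ⊕ Fin n → ℝ
  | Sum.inl i => b i
  | Sum.inr _ => 0

theorem aR_inl (A : Fin m → Fin n → ℚ) (i : Fin m) (x : Fin n → ℝ) :
    aR A (Sum.inl i) x = ∑ j, (A i j : ℝ) * x j := by
  simp [aR]

theorem aR_inr (A : Fin m → Fin n → ℚ) (j : Fin n) (x : Fin n → ℝ) :
    aR A (Sum.inr j) x = - x j := by
  simp [aR]

theorem pol_eq (A : Fin m → Fin n → ℚ) (b : Fin m → ℚ) : Pol (aR A) (bR b) = polyhedron A b := by
  ext x
  constructor
  · intro h
    refine ⟨fun i => ?_, fun j => ?_⟩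
    · have := h (Sum.inl i)
      rwa [aR_inl] at this
    · have := h (Sum.inr j)
      rw [aR_inr] at this
      simp only [bR] at this
      linarith
  · rintro ⟨h1, h2⟩ (i | j)
    · rw [aR_inl]
      exact h1 i
    · rw [aR_inr]
      have := h2 j
      simp only [bR]
      linarith

variable {A : Fin m → Fin n → ℚ} {b : Fin m → ℚ} {c v : Fin n → ℚ}

theorem row_of (i : Fin m ⊕ Fin n) : ∃ r ∈ rowsJ (inp A b c v), ∃ k : ℝ, 0 < k ∧
    ∀ x : Fin n → ℝ, rf (crow (inp A b c v)).length r (eN length_crow (x, 1)) =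
      k * (aR A i x - bR b i) := by
  rcases i with i | j
  · refine ⟨zrow (List.ofFn (A i) ++ [-b i]), mem_jl.2 (Or.inr (List.mem_append_left _
      (mem_rowsA.2 ⟨i, rfl⟩))), zden (List.ofFn (A i) ++ [-b i]), by exact_mod_cast zden_pos _,
      fun x => ?_⟩
    rw [rf_zrow, aR_inl]
    simp only [bR]
    push_cast
    ring
  · refine ⟨negV (unitV (n + 1) j), mem_jl.2 (Or.inr (List.mem_append_right _
      (mem_rowsN.2 ⟨j, j.2, rfl⟩))), 1, one_pos, fun x => ?_⟩
    have h1 : unitV (n + 1) j = unitV (crow (inp A b c v)).length j := by rw [length_crow]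
    rw [rf_negV, h1, rf_unitV (by rw [length_crow]; omega), aR_inr]
    simp [eN, bR]

theorem finite_vertices (A : Fin m → Fin n → ℚ) (b : Fin m → ℚ) :
    (Set.extremePoints ℝ (polyhedron A b)).Finite := by
  classical
  rw [← pol_eq]
  rcases (Set.extremePoints ℝ (Pol (aR A) (bR b))).eq_empty_or_nonempty with h0 | ⟨v0, hv0⟩
  · rw [h0]; exact Set.finite_empty
  have hT : PT (aR A) (bR b) ∅ = Pol (aR A) (bR b) := by
    ext x
    exact ⟨fun h => h.1, fun h => ⟨h, fun i hi => absurd hi (Set.notMem_empty i)⟩⟩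
  obtain ⟨R, hR⟩ := exists_irr (a := aR A) (b := bR b) (T := ∅) ⟨v0, by rw [hT]; exact hv0.1⟩
  rw [hT] at hR
  refine Set.Finite.of_finite_image (f := fun x => {i | aR A i x = bR b i}) (Set.toFinite _) ?_
  intro x hx y hy h
  by_contra hne
  obtain ⟨r, -, h1, h2⟩ := hR.sep x hx hx.1 y hy.1 hne
  have h3 : r ∈ {i | aR A i x = bR b i} := h1
  beta_reduce at h
  rw [h] at h3
  exact h2.ne h3

/-- The rule produces a path. -/
theorem exists_path : ∀ {v : Fin n → ℚ}, re v ∈ Set.extremePoints ℝ (polyhedron A b) →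
    ∃ (N : ℕ) (x : ℕ → Fin n → ℚ) (d : Option (Fin n → ℚ)),
      IsSimplexPath (polyhedron A b) c v N x d ∧
      (∀ k < N, nxt A b c (x k) = Sum.inl (x (k + 1))) ∧ nxt A b c (x N) = Sum.inr d := by
  classical
  have hfin := finite_vertices A b
  have key : ∀ (M : ℕ) (v : Fin n → ℚ), re v ∈ Set.extremePoints ℝ (polyhedron A b) →
      {y | y ∈ Set.extremePoints ℝ (polyhedron A b) ∧ obj c (re v) < obj c y}.ncard = M →
      ∃ (N : ℕ) (x : ℕ → Fin n → ℚ) (d : Option (Fin n → ℚ)),
      IsSimplexPath (polyhedron A b) c v N x d ∧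
      (∀ k < N, nxt A b c (x k) = Sum.inl (x (k + 1))) ∧ nxt A b c (x N) = Sum.inr d := by
    intro M
    induction M using Nat.strong_induction_on with
    | _ M ih =>
      intro v hv hM
      obtain ⟨h1, h2, h3⟩ := nxt_spec (c := c) hv
      cases hn : nxt A b c v with
      | inr d =>
        refine ⟨0, fun _ => v, d, ⟨rfl, fun k _ => hv, fun k hk => by omega, fun hd => ?_,
          fun e he => ?_⟩, fun k hk => by omega, hn⟩
        · subst hd; exact h2 hn
        · subst he; exact h3 e hn
      | inl v' =>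
        obtain ⟨g1, g2, -⟩ := h1 v' hn
        obtain ⟨N, x, d, hp, hq, hr⟩ := ih _ (by
          rw [← hM]
          refine Set.ncard_lt_ncard ?_ (hfin.subset fun y hy => hy.1)
          rw [Set.ssubset_iff_of_subset]
          · refine ⟨re v', ⟨g1, g2.2⟩, fun h => lt_irrefl _ h.2⟩
          · intro y hy
            exact ⟨hy.1, g2.2.trans hy.2⟩) v' g1 rfl
        obtain ⟨p1, p2, p3, p4, p5⟩ := hp
        obtain ⟨y, hy0, hy1⟩ : ∃ y : ℕ → Fin n → ℚ, y 0 = v ∧ ∀ k, y (k + 1) = x k :=
          ⟨fun k => Nat.casesOn k v fun k => x k, rfl, fun _ => rfl⟩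
        refine ⟨N + 1, y, d, ⟨hy0, fun k hk => ?_, fun k hk => ?_, fun hd => ?_, fun e he => ?_⟩,
          fun k hk => ?_, ?_⟩
        · cases k with
          | zero => rw [hy0]; exact hv
          | succ k => rw [hy1]; exact p2 k (by omega)
        · cases k with
          | zero => rw [hy1, hy0, p1]; exact g2
          | succ k => rw [hy1, hy1]; exact p3 k (by omega)
        · rw [hy1]; exact p4 hd
        · rw [hy1]; exact p5 e he
        · cases k with
          | zero => rw [hy1, hy0, p1]; exact hn
          | succ k => rw [hy1, hy1]; exact hq k (by omega)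
        · rw [hy1]; exact hr
  intro v hv
  exact key _ v hv rfl

/-- The bound for the number of steps. -/
theorem bound {e N : ℕ} {x : ℕ → Fin n → ℚ} {d : Option (Fin n → ℚ)}
    (hp : IsSimplexPath (polyhedron A b) c v N x d)
    (hq : ∀ k < N, nxt A b c (x k) = Sum.inl (x (k + 1)))
    (hb : BddAbove (obj c '' polyhedron A b)) (hc : Covered e (polyhedron A b)) :
    N + 1 ≤ (n + 1) * (m + n + 1) ^ e := by
  classical
  obtain ⟨p1, p2, p3, -, -⟩ := hp
  have hv : re (x 0) ∈ Set.extremePoints ℝ (polyhedron A b) := p2 0 (Nat.zero_le _)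
  obtain ⟨w1, w2, w3, w4⟩ := opt_spec (c := c) hv
  -- the computed optimum is a vertex
  have hw0 : 0 < (opt A b c).getD n 0 := by
    rcases w4 with h | ⟨h, h'⟩
    · exact h
    · exfalso
      obtain ⟨B, hB⟩ := hb
      have hlv := lv_dq (length_crow (A := A) (b := b) (c := c) (v := x 0)) h
      rw [hlv, rf_crow] at h'
      have hz : (0 : ℝ) < zden (List.ofFn c ++ [0]) := by exact_mod_cast zden_pos _
      have hpos : 0 < obj c (re (dq n (opt A b c))) := (mul_pos_iff_of_pos_left hz).1 h'
      have hray := (jl_nonpos_iff (A := A) (b := b) (c := c) (v := x 0)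
        (re (dq n (opt A b c))) 0).1 (fun r hr => by
          rw [← hlv]; exact w2.mem.2 r hr)
      have hmem : ∀ t : ℝ, 0 ≤ t → re (x 0) + t • re (dq n (opt A b c)) ∈ polyhedron A b := by
        intro t ht
        refine ⟨fun i => ?_, fun j => ?_⟩
        · have h1 := hv.1.1 i
          have h2 := hray.2.1 i
          simp only [Pi.add_apply, Pi.smul_apply, smul_eq_mul, mul_add, Finset.sum_add_distrib]
          have h3 : ∑ j, (A i j : ℝ) * (t * re (dq n (opt A b c)) j) =
              t * ∑ j, (A i j : ℝ) * re (dq n (opt A b c)) j := by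
            rw [Finset.mul_sum]
            exact Finset.sum_congr rfl fun j _ => by ring
          rw [h3]
          nlinarith
        · have h1 := hv.1.2 j
          have h2 := hray.2.2 j
          simp only [Pi.add_apply, Pi.smul_apply, smul_eq_mul]
          have := mul_nonneg ht h2
          linarith
      have hval : ∀ t : ℝ, obj c (re (x 0) + t • re (dq n (opt A b c))) =
          obj c (re (x 0)) + t * obj c (re (dq n (opt A b c))) := by
        intro t
        unfold obj
        simp only [Pi.add_apply, Pi.smul_apply, smul_eq_mul, mul_add, Finset.sum_add_distrib]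
        rw [Finset.mul_sum]
        congr 1
        exact Finset.sum_congr rfl fun j _ => by ring
      set t := (|B - obj c (re (x 0))| + 1) / obj c (re (dq n (opt A b c))) with ht
      have h1 := hB ⟨_, hmem t (by positivity), rfl⟩
      rw [hval, ht, div_mul_cancel₀ _ hpos.ne'] at h1
      have := le_abs_self (B - obj c (re (x 0)))
      linarith
  have hw0' : (0 : ℝ) < (opt A b c).getD n 0 := by exact_mod_cast hw0
  have hwv : re (xq n (opt A b c)) ∈ Set.extremePoints ℝ (polyhedron A b) :=
    vertex_of_ext (c := c) (v := x 0) w2 hw0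
  have hlvw : ∀ v, lv (crow (inp A b c v)).length (opt A b c) =
      ((opt A b c).getD n 0 : ℝ) • eN length_crow (re (xq n (opt A b c)), 1) := fun v =>
    lv_xq length_crow hw0
  -- the objective function increases
  have hobj : ∀ j k, j < k → k ≤ N → obj c (re (x j)) < obj c (re (x k)) := by
    intro j k hjk
    induction k, hjk using Nat.le_induction with
    | base => intro h; exact (p3 j (by omega)).2
    | succ k hjk ih => intro h; exact (ih (by omega)).trans (p3 k (by omega)).2
  have hcard : Fintype.card (Fin m ⊕ Fin n) = m + n := by simp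
  have key := path_bound (a := aR A) (b := bR b) (e := e) (n := n) (w := re (xq n (opt A b c)))
    (N := N) (x := fun k => re (x k)) (by simp) (by rw [pol_eq]; exact hc)
    (by rw [pol_eq]; exact hwv) (fun k hk => by rw [pol_eq]; exact p2 k hk)
    (fun j hj k hk h => by
      rcases lt_trichotomy j k with h1 | h1 | h1
      · have := hobj j k h1 hk
        rw [h] at this
        exact absurd this (lt_irrefl _)
      · exact h1
      · have := hobj k j h1 hj
        rw [h] at this
        exact absurd this (lt_irrefl _))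
    (fun k hk i hi hi' => by
      obtain ⟨r, hr, s, hs, hrow⟩ := row_of (A := A) (b := b) (c := c) (v := x k) i
      have h1 := ((nxt_spec (c := c) (p2 k hk.le)).1 _ (hq k hk)).2.2 r hr (by
        rw [hrow, hi, sub_self, mul_zero]) (by
        rw [hlvw, map_smul, hrow, hi', sub_self, mul_zero, smul_zero])
      rw [hrow] at h1
      have h2 := (mul_eq_zero.1 h1).resolve_left hs.ne'
      linarith)
  rw [hcard] at key
  exact key

end Pool.Agent.X239.CV
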