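import Pool.Agent.X239.CV.Cnt
set_option autoImplicit false

/-!
# Examples of covered polyhedra
-/

namespace Pool.Agent.X239.CV

open Set

variable {E : Type*} [NormedAddCommGroup E] [NormedSpace ℝ E] [FiniteDimensional ℝ E]
  {ι : Type*} [Fintype ι] {a : ι → E →ₗ[ℝ] ℝ} {b : ι → ℝ}

omit [FiniteDimensional ℝ E] in
/-- If every facet `G` of every face `F` has a complementary proper face `H`, such that all vertices
of `F` lie in `G` or in `H`, then the polyhedron is `0`-covered. -/
theorem covered_of_complement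
    (h : ∀ F, IsFace (Pol a b) F → ∀ G, IsFacet (Pol a b) F G → ∃ H, IsFace (Pol a b) H ∧ H ⊂ F ∧
      ∀ x ∈ (Pol a b).extremePoints ℝ, x ∈ F → x ∈ G ∨ x ∈ H) : Covered 0 (Pol a b) := by
  intro F hF x hx hxF y hy hyF hno
  rw [Nat.cast_zero, nonpos_iff_eq_zero, Set.encard_eq_zero, Set.eq_empty_iff_forall_notMem]
  rintro G ⟨hG, hxG, hyG⟩
  obtain ⟨H, hH, hHF, hcov⟩ := h F hF G hG
  obtain ⟨G', hG', hHG'⟩ := exists_facet hH hHF
  exact hno G' hG' ⟨hHG' ((hcov x hx hxF).resolve_left hxG), hHG' ((hcov y hy hyF).resolve_left hyG)⟩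

theorem face_eq_PT {F : Set E} (hF : IsFace (Pol a b) F) :
    F = PT a b {i | ∀ x ∈ F, a i x = b i} := by
  have hsub : F ⊆ PT a b {i | ∀ x ∈ F, a i x = b i} := fun x hx =>
    ⟨face_sub hF hx, fun i hi => hi x hx⟩
  refine face_eq_of_tight hF (isFace_PT (hF.1.mono hsub)) ?_
  ext i
  constructor
  · intro hi x hx
    exact hx.2 i hi
  · intro hi x hx
    exact hi x (hsub hx)

/-- A vertex of a face lies on at least as many facets as the dimension. -/
theorem dim_le_tight {F : Set E} (hF : IsFace (Pol a b) F) {R : Finset ι} (hR : Irr a b F R) {x : E}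
    (hx : x ∈ (Pol a b).extremePoints ℝ) (hxF : x ∈ F) [DecidablePred fun r => a r x = b r] :
    Module.finrank ℝ (vectorSpan ℝ F) ≤ (R.filter fun r => a r x = b r).card := by
  classical
  set A := R.filter fun r => a r x = b r with hA
  let L : vectorSpan ℝ F →ₗ[ℝ] (A → ℝ) := LinearMap.pi fun r => (a r).comp (Submodule.subtype _)
  have hL : Function.Injective L := by
    rw [← LinearMap.ker_eq_bot, LinearMap.ker_eq_bot']
    intro h hh
    have h1 : (h : E) = 0 := by
      refine hR.dim x hx hxF h (fun i hi => ?_) fun r hr hrx => ?_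
      · have h2 : vectorSpan ℝ F ≤ LinearMap.ker (a i) := by
          rw [vectorSpan_def, Submodule.span_le]
          rintro _ ⟨y, hy, z, hz, rfl⟩
          rw [SetLike.mem_coe, LinearMap.mem_ker]
          change a i (y - z) = 0
          rw [map_sub, hi y hy, hi z hz, sub_self]
        exact LinearMap.mem_ker.1 (h2 h.2)
      · have := congrFun hh ⟨r, Finset.mem_filter.2 ⟨hr, hrx⟩⟩
        exact this
    exact Subtype.ext h1
  have := LinearMap.finrank_le_finrank_of_injective hL
  rwa [Module.finrank_fintype_fun_eq_card, Fintype.card_coe] at this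

/-- If every face of dimension `k` has at most `2 k + e` facets, then the polyhedron is
`e`-covered. -/
theorem covered_of_facets {e : ℕ}
    (h : ∀ F, IsFace (Pol a b) F → {G | IsFacet (Pol a b) F G}.encard ≤
      2 * Module.finrank ℝ (vectorSpan ℝ F) + e) : Covered e (Pol a b) := by
  classical
  intro F hF x hx hxF y hy hyF hno
  obtain ⟨R, hR⟩ : ∃ R : Finset ι, Irr a b F R := by
    have := face_eq_PT hF
    rw [this]
    exact exists_irr (by rw [← this]; exact hF.1)
  set Ax := R.filter fun r => a r x = b r with hAx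
  set Ay := R.filter fun r => a r y = b r with hAy
  have h1 : Module.finrank ℝ (vectorSpan ℝ F) ≤ Ax.card := by
    rw [hAx]; convert dim_le_tight hF hR hx hxF
  have h2 : Module.finrank ℝ (vectorSpan ℝ F) ≤ Ay.card := by
    rw [hAy]; convert dim_le_tight hF hR hy hyF
  have hdisj : Disjoint Ax Ay := by
    rw [Finset.disjoint_left]
    intro r hr hr'
    rw [hAx, Finset.mem_filter] at hr
    rw [hAy, Finset.mem_filter] at hr'
    exact hno _ (hR.facet r hr.1) ⟨⟨hxF, hr.2⟩, hyF, hr'.2⟩
  have hsub : ((fun r => {z | z ∈ F ∧ a r z = b r}) '' ((Ax ∪ Ay : Finset ι) : Set ι)) ∪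
      {G | IsFacet (Pol a b) F G ∧ x ∉ G ∧ y ∉ G} ⊆ {G | IsFacet (Pol a b) F G} := by
    rintro G (⟨r, hr, rfl⟩ | hG)
    · rw [Finset.mem_coe, Finset.mem_union, hAx, hAy, Finset.mem_filter, Finset.mem_filter] at hr
      rcases hr with hr | hr
      · exact hR.facet r hr.1
      · exact hR.facet r hr.1
    · exact hG.1
  have hdisj2 : Disjoint ((fun r => {z | z ∈ F ∧ a r z = b r}) '' ((Ax ∪ Ay : Finset ι) : Set ι))
      {G | IsFacet (Pol a b) F G ∧ x ∉ G ∧ y ∉ G} := by
    rw [Set.disjoint_left]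
    rintro G ⟨r, hr, rfl⟩ hG
    rw [Finset.mem_coe, Finset.mem_union, hAx, hAy, Finset.mem_filter, Finset.mem_filter] at hr
    rcases hr with hr | hr
    · exact hG.2.1 ⟨hxF, hr.2⟩
    · exact hG.2.2 ⟨hyF, hr.2⟩
  have hinj : Set.InjOn (fun r => {z | z ∈ F ∧ a r z = b r}) ((Ax ∪ Ay : Finset ι) : Set ι) := by
    have hmem : ∀ r ∈ ((Ax ∪ Ay : Finset ι) : Set ι), r ∈ R := by
      intro r hr
      rw [Finset.mem_coe, Finset.mem_union, hAx, hAy, Finset.mem_filter, Finset.mem_filter] at hr
      rcases hr with hr | hr <;> exact hr.1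
    intro r hr r' hr' h
    exact hR.inj r (hmem r hr) r' (hmem r' hr') h
  have h3 := (Set.encard_le_encard hsub).trans (h F hF)
  rw [Set.encard_union_eq hdisj2, hinj.encard_image, Set.encard_coe_eq_coe_finsetCard,
    Finset.card_union_of_disjoint hdisj] at h3
  have hfin : {G | IsFacet (Pol a b) F G ∧ x ∉ G ∧ y ∉ G}.Finite :=
    Set.Finite.subset (finite_faces (a := a) (b := b)) fun G hG => hG.1.1
  rw [hfin.encard_eq_coe_toFinset_card] at h3 ⊢
  have h4 : Ax.card + Ay.card + hfin.toFinset.card ≤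
      2 * Module.finrank ℝ (vectorSpan ℝ F) + e := by exact_mod_cast h3
  have h5 : hfin.toFinset.card ≤ e := by omega
  exact_mod_cast h5

end Pool.Agent.X239.CV
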