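import Pool.Agent.Y644.QW.Opt
import Pool.Agent.X239.CV.Ex
set_option autoImplicit false

/-!
# The rule

The next vertex after `v`: let `w` be the optimal vertex computed by the auxiliary routine; take an
improving edge of the smallest face containing `v` and `w`.
-/

namespace Pool.Agent.X239.CV

open Set Pool.Agent.Y644.QS Pool.Agent.Y644.QW Pool.Agent.H687R2.LLL Pool.Agent.NPC
  Pool.Agent.NPC.H532.RP

/-- The rows which are tight at `v` and at `w`. -/
def com (J : List (List ℤ)) (v w : List ℤ) : List (List ℤ) :=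
  J.filter fun r => decide (dot r v = 0) && decide (dot r w = 0)

/-- The improving edge. -/
def nxtV (x : Inp) : Option (List ℤ) :=
  improve (crow x) (com (rowsJ x) (startV x) (optw (crow x) [] (rowsJ x))) (rowsJ x) (startV x)

section

variable {c : List ℤ} {J : List (List ℤ)} {v w u : List ℤ}

theorem mem_com (hJ : Len c.length J) (hv : v.length = c.length) (hw : w.length = c.length)
    {r : List ℤ} : r ∈ com J v w ↔
      r ∈ J ∧ rf c.length r (lv c.length v) = 0 ∧ rf c.length r (lv c.length w) = 0 := by
  rw [com, List.mem_filter, Bool.and_eq_true, decide_eq_true_iff, decide_eq_true_iff]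
  refine and_congr_right fun hr => ?_
  rw [rf_dot (hJ r hr) hv, rf_dot (hJ r hr) hw, Int.cast_eq_zero, Int.cast_eq_zero]

theorem ext_com {E : List (List ℤ)} (hE : ∀ r ∈ E, r ∈ J)
    {x : EuclideanSpace ℝ (Fin c.length)} (h : Ext (rf c.length) E J x) :
    Ext (rf c.length) [] J x :=
  ⟨⟨fun r hr => by simp at hr, h.mem.2⟩, h.ne, fun y _ hy =>
    h.ker y (fun r hr => hy r (hE r hr) (h.mem.1 r hr)) hy⟩

theorem to_com {E : List (List ℤ)} {x : EuclideanSpace ℝ (Fin c.length)}
    (hE : ∀ r ∈ E, rf c.length r x = 0) (h : Ext (rf c.length) [] J x) :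
    Ext (rf c.length) E J x :=
  ⟨⟨hE, h.mem.2⟩, h.ne, fun y _ hy => h.ker y (fun r hr => by simp at hr) hy⟩

/-- An improving edge in a face is an improving edge. -/
theorem step_com {E : List (List ℤ)} (hE : ∀ r ∈ E, r ∈ J)
    (hvE : ∀ r ∈ E, rf c.length r (lv c.length v) = 0) (h : Step c E J v u) : Step c [] J v u := by
  refine ⟨h.len, h.pos, ext_com hE h.ext, fun y _ hy => ?_, h.up⟩
  exact h.adj y (fun r hr => hy r (hE r hr) (hvE r hr) (h.ext.mem.1 r hr)) hy

/-- An optimum of a face which contains a global optimum is a global optimum. -/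
theorem top_com {E : List (List ℤ)} (hτJ : negV (tau c) ∈ J)
    (hv : 0 < rf c.length (tau c) (lv c.length v))
    (hw : InC (rf c.length) E J (lv c.length w)) (hwt : Top c [] J w)
    (hor : 0 < rf c.length (tau c) (lv c.length w) ∨
      (rf c.length (tau c) (lv c.length w) = 0 ∧ 0 < rf c.length c (lv c.length w)))
    (h : Top c E J v) : Top c [] J v := by
  have h1 := h _ hw
  rcases hor with h2 | ⟨h2, h3⟩
  · intro y hy
    have h3 := hwt y hy
    have h0 := tau_nonneg hτJ hy
    have h4 : (rf c.length c y * rf c.length (tau c) (lv c.length v)) *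
        rf c.length (tau c) (lv c.length w) ≤ (rf c.length c (lv c.length v) *
        rf c.length (tau c) y) * rf c.length (tau c) (lv c.length w) := by
      nlinarith [mul_le_mul_of_nonneg_right h3 hv.le, mul_le_mul_of_nonneg_right h1 h0]
    exact le_of_mul_le_mul_right h4 h2
  · rw [h2, mul_zero] at h1
    have := mul_pos h3 hv
    linarith

end

/-! ### The sequence of vertices -/

variable {m n : ℕ} {A : Fin m → Fin n → ℚ} {b : Fin m → ℚ} {c v : Fin n → ℚ}

/-- The next vertex, or the final answer. -/
noncomputable def nxt (A : Fin m → Fin n → ℚ) (b : Fin m → ℚ) (c v : Fin n → ℚ) :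
    (Fin n → ℚ) ⊕ Option (Fin n → ℚ) :=
  (nxtV (inp A b c v)).elim (Sum.inr none) fun u =>
    if 0 < u.getD n 0 then Sum.inl (xq n u) else Sum.inr (some (dq n u))

/-- The computed optimum. -/
def opt (A : Fin m → Fin n → ℚ) (b : Fin m → ℚ) (c : Fin n → ℚ) : List ℤ :=
  optw (crow (inp A b c 0)) [] (rowsJ (inp A b c 0))

theorem opt_eq (v : Fin n → ℚ) :
    optw (crow (inp A b c v)) [] (rowsJ (inp A b c v)) = opt A b c := rfl

theorem lenJ : Len (crow (inp A b c v)).length (rowsJ (inp A b c v)) := len_rowsI.jl

theorem opt_spec (hv : re v ∈ Set.extremePoints ℝ (polyhedron A b)) :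
    (opt A b c).length = (crow (inp A b c v)).length ∧
      Ext (rf (crow (inp A b c v)).length) [] (rowsJ (inp A b c v))
        (lv (crow (inp A b c v)).length (opt A b c)) ∧
      Top (crow (inp A b c v)) [] (rowsJ (inp A b c v)) (opt A b c) ∧
      (0 < (opt A b c).getD n 0 ∨ ((opt A b c).getD n 0 = 0 ∧
        0 < rf (crow (inp A b c v)).length (crow (inp A b c v))
          (lv (crow (inp A b c v)).length (opt A b c)))) := by
  have hc : 0 < (crow (inp A b c v)).length := by rw [length_crow]; omega
  have hE : Len (crow (inp A b c v)).length [] := fun r hr => by simp at hr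
  obtain ⟨h1, h2, h3, h4⟩ := optw_spec hc hE lenJ (tau_mem_jl _ _) (start_vx (c := c) hv)
  refine ⟨h1, h2, h3, ?_⟩
  rcases h4 with h4 | ⟨h4, h5⟩
  · left
    rw [rf_tau_lv length_crow] at h4
    exact_mod_cast h4
  · right
    rw [rf_tau_lv length_crow] at h4
    exact ⟨by exact_mod_cast h4, h5⟩

/-- The facts about one step. -/
theorem nxt_spec (hv : re v ∈ Set.extremePoints ℝ (polyhedron A b)) :
    (∀ v', nxt A b c v = Sum.inl v' → re v' ∈ Set.extremePoints ℝ (polyhedron A b) ∧
      ImprovingEdge (polyhedron A b) c v v' ∧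
      ∀ r ∈ rowsJ (inp A b c v),
        rf (crow (inp A b c v)).length r (eN length_crow (re v, 1)) = 0 →
        rf (crow (inp A b c v)).length r (lv (crow (inp A b c v)).length (opt A b c)) = 0 →
        rf (crow (inp A b c v)).length r (eN length_crow (re v', 1)) = 0) ∧
    (nxt A b c v = Sum.inr none → ∀ y ∈ polyhedron A b, obj c y ≤ obj c (re v)) ∧
    ∀ d, nxt A b c v = Sum.inr (some d) → UnboundedEdge (polyhedron A b) c v d := by
  set C := crow (inp A b c v) with hC
  set J := rowsJ (inp A b c v) with hJd
  set s := startV (inp A b c v) with hs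
  obtain ⟨w1, w2, w3, w4⟩ := opt_spec (c := c) hv
  rw [← hC] at w1 w2 w3 w4
  rw [← hJd] at w2 w3
  have hJ : Len C.length J := lenJ
  have hτJ : negV (tau C) ∈ J := tau_mem_jl _ _
  have hvx : Vx C [] J s := start_vx (c := c) hv
  set K := com J s (opt A b c) with hK
  have hmem : ∀ r, r ∈ K ↔ r ∈ J ∧ rf C.length r (lv C.length s) = 0 ∧
      rf C.length r (lv C.length (opt A b c)) = 0 := fun r => mem_com hJ hvx.len w1
  have hKJ : ∀ r ∈ K, r ∈ J := fun r hr => ((hmem r).1 hr).1
  have hKv : ∀ r ∈ K, rf C.length r (lv C.length s) = 0 := fun r hr => ((hmem r).1 hr).2.1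
  have hKw : ∀ r ∈ K, rf C.length r (lv C.length (opt A b c)) = 0 := fun r hr =>
    ((hmem r).1 hr).2.2
  have hKl : Len C.length K := fun r hr => hJ r (hKJ r hr)
  have hsE : Ext (rf C.length) K J (lv C.length s) := to_com hKv hvx.ext
  have hxs : xq n s = v := xq_startV
  have hs0 : 0 < s.getD n 0 := getD_startV
  have hs0' : (0 : ℝ) < s.getD n 0 := by exact_mod_cast hs0
  have hlvs : lv C.length s = (s.getD n 0 : ℝ) • eN length_crow (re v, 1) := by
    rw [lv_xq length_crow hs0, hxs]
  have hnx : nxt A b c v = (improve C K J s).elim (Sum.inr none) fun u =>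
    if 0 < u.getD n 0 then Sum.inl (xq n u) else Sum.inr (some (dq n u)) := rfl
  cases himp : improve C K J s with
  | none =>
    rw [himp, Option.elim_none] at hnx
    refine ⟨fun v' h => ?_, fun _ => ?_, fun d h => ?_⟩
    · rw [hnx] at h; exact absurd h (by simp)
    · have h1 := improve_none hKl hJ hvx.len himp
      have h2 : Top C [] J s := top_com hτJ hvx.pos
        (w := opt A b c) ⟨hKw, w2.mem.2⟩ w3 (by
          rw [rf_tau_lv length_crow]
          rcases w4 with h | ⟨h, h'⟩
          · left; exact_mod_cast h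
          · right; exact ⟨by exact_mod_cast h, h'⟩) h1
      have h3 := optimal_of_top (v := v) hs0 h2
      rw [hxs] at h3
      exact h3
    · rw [hnx] at h; exact absurd h (by simp)
  | some u =>
    rw [himp, Option.elim_some] at hnx
    have hstep := improve_some hKl hJ hvx.len hτJ hsE hvx.pos himp
    have hstep' := step_com hKJ hKv hstep
    by_cases hu : 0 < u.getD n 0
    · rw [if_pos hu] at hnx
      refine ⟨fun v' h => ?_, fun h => ?_, fun d h => ?_⟩
      · rw [hnx, Sum.inl.injEq] at h
        subst h
        refine ⟨vertex_of_ext (c := c) (v := v) hstep'.ext hu, ?_, fun r hr h1 h2 => ?_⟩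
        · have := improving_of_step (v := v) hvx.ext hstep' hu
          rw [hxs] at this
          exact this
        · have h3 : r ∈ K := (hmem r).2 ⟨hr, by rw [hlvs, map_smul, h1, smul_zero], h2⟩
          have h4 := hstep.ext.mem.1 r h3
          rw [lv_xq length_crow hu, map_smul, smul_eq_mul] at h4
          have h5 : (u.getD n 0 : ℝ) ≠ 0 := by exact_mod_cast hu.ne'
          exact (mul_eq_zero.1 h4).resolve_left h5
      · rw [hnx] at h; exact absurd h (by simp)
      · rw [hnx] at h; exact absurd h (by simp)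
    · rw [if_neg hu] at hnx
      have hu0 : u.getD n 0 = 0 := by
        have h1 := tau_nonneg hτJ hstep.ext.mem
        rw [rf_tau_lv length_crow] at h1
        have h2 : 0 ≤ u.getD n 0 := by exact_mod_cast h1
        omega
      refine ⟨fun v' h => ?_, fun h => ?_, fun d h => ?_⟩
      · rw [hnx] at h; exact absurd h (by simp)
      · rw [hnx] at h; exact absurd h (by simp)
      · rw [hnx, Sum.inr.injEq, Option.some.injEq] at h
        subst h
        have := unbounded_of_step (v := v) hvx.ext hstep' hu0
        rw [hxs] at this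
        exact this

end Pool.Agent.X239.CV
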