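import Pool.Agent.X239.CV.Geo
set_option autoImplicit false

/-!
# Counting the vertices on a path in the smallest faces containing the optimum
-/

namespace Pool.Agent.X239.CV

open Set

/-- The number of small subsets. -/
theorem card_small {ι : Type*} [Fintype ι] [DecidableEq ι] (e : ℕ) :
    ((Finset.univ : Finset (Finset ι)).filter fun S => S.card ≤ e).card ≤
      (Fintype.card ι + 1) ^ e := by
  classical
  have h : ((Finset.univ : Finset (Finset ι)).filter fun S => S.card ≤ e) ⊆
      (Finset.univ : Finset (Fin e → Option ι)).image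
        fun f => Finset.univ.filter fun i => ∃ k, f k = some i := by
    intro S hS
    rw [Finset.mem_filter] at hS
    rw [Finset.mem_image]
    obtain ⟨g⟩ : Nonempty (S ↪ Fin e) := by
      have : Fintype.card S ≤ Fintype.card (Fin e) := by simpa using hS.2
      exact Function.Embedding.nonempty_of_card_le this
    refine ⟨fun k => if h : ∃ s : S, g s = k then some (h.choose : ι) else none,
      Finset.mem_univ _, ?_⟩
    ext i
    rw [Finset.mem_filter]
    constructor
    · rintro ⟨-, k, hk⟩
      beta_reduce at hk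
      by_cases h : ∃ s : S, g s = k
      · rw [dif_pos h, Option.some.injEq] at hk
        rw [← hk]
        exact h.choose.2
      · rw [dif_neg h] at hk
        exact absurd hk (by simp)
    · intro hi
      refine ⟨Finset.mem_univ i, g ⟨i, hi⟩, ?_⟩
      have h : ∃ s : S, g s = g ⟨i, hi⟩ := ⟨_, rfl⟩
      beta_reduce
      rw [dif_pos h, Option.some.injEq]
      have := g.injective h.choose_spec
      rw [this]
  refine (Finset.card_le_card h).trans (Finset.card_image_le.trans ?_)
  rw [Finset.card_univ, Fintype.card_fun, Fintype.card_fin, Fintype.card_option]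

variable {E : Type*} [NormedAddCommGroup E] [NormedSpace ℝ E] [FiniteDimensional ℝ E]
  {ι : Type*} [Fintype ι] {a : ι → E →ₗ[ℝ] ℝ} {b : ι → ℝ}

/-- The vertices for which the smallest face containing them and `w` is a fixed face. -/
theorem card_phase {e : ℕ} (hc : Covered e (Pol a b)) {w : E}
    (hw : w ∈ (Pol a b).extremePoints ℝ) {F : Set E} {X : Finset E}
    (hX : ∀ x ∈ X, x ∈ (Pol a b).extremePoints ℝ ∧ Fw a b x w = F) :
    X.card ≤ (Fintype.card ι + 1) ^ e := by
  classical
  rcases X.eq_empty_or_nonempty with rfl | ⟨x0, hx0⟩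
  · simp
  obtain ⟨hx0v, hx0F⟩ := hX x0 hx0
  have hFface : IsFace (Pol a b) F := by rw [← hx0F]; exact isFace_Fw hx0v.1
  have hwF : w ∈ F := by rw [← hx0F]; exact right_mem_Fw hw.1
  obtain ⟨R, hR⟩ : ∃ R : Finset ι, Irr a b F R := by
    rw [← hx0F]
    exact exists_irr ⟨x0, left_mem_Fw hx0v.1⟩
  have hxF : ∀ x ∈ X, x ∈ F := fun x hx => by
    rw [← (hX x hx).2]; exact left_mem_Fw (hX x hx).1.1
  -- no common facets
  have hno : ∀ x ∈ X, ∀ G, IsFacet (Pol a b) F G → ¬ (x ∈ G ∧ w ∈ G) := by
    rintro x hx G hG ⟨h1, h2⟩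
    have := Fw_sub hG.1 h1 h2
    rw [(hX x hx).2] at this
    exact hG.2.1.2 this
  -- the rows which are tight neither at `x` nor at `w`
  let C : E → Finset ι := fun x => R.filter fun r => a r x ≠ b r ∧ a r w ≠ b r
  have hC : ∀ x ∈ X, (C x).card ≤ e := by
    intro x hx
    have h1 := hc F hFface x (hX x hx).1 (hxF x hx) w hw hwF (hno x hx)
    have h2 : ((fun r => {y | y ∈ F ∧ a r y = b r}) '' (C x : Set ι)) ⊆
        {G | IsFacet (Pol a b) F G ∧ x ∉ G ∧ w ∉ G} := by
      rintro G ⟨r, hr, rfl⟩
      rw [Finset.mem_coe, Finset.mem_filter] at hr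
      exact ⟨hR.facet r hr.1, fun h => hr.2.1 h.2, fun h => hr.2.2 h.2⟩
    have h3 : Set.InjOn (fun r => {y | y ∈ F ∧ a r y = b r}) (C x : Set ι) := by
      intro r hr r' hr' h
      rw [Finset.mem_coe, Finset.mem_filter] at hr hr'
      exact hR.inj r hr.1 r' hr'.1 h
    have h4 := (Set.encard_le_encard h2).trans h1
    rw [h3.encard_image, Set.encard_coe_eq_coe_finsetCard] at h4
    exact_mod_cast h4
  have hinj : Set.InjOn C (X : Set E) := by
    intro x hx x' hx' h
    by_contra hne
    obtain ⟨r, hr, h1, h2⟩ := hR.sep x (hX x hx).1 (hxF x hx) x' (hxF x' hx') hne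
    have h3 : a r w ≠ b r := fun h3 => hno x hx _ (hR.facet r hr) ⟨⟨hxF x hx, h1⟩, hwF, h3⟩
    have h4 : r ∈ C x' := Finset.mem_filter.2 ⟨hr, h2.ne, h3⟩
    rw [← h] at h4
    exact (Finset.mem_filter.1 h4).2.1 h1
  calc X.card = (X.image C).card := (Finset.card_image_of_injOn hinj).symm
    _ ≤ ((Finset.univ : Finset (Finset ι)).filter fun S => S.card ≤ e).card := by
        refine Finset.card_le_card fun S hS => ?_
        obtain ⟨x, hx, rfl⟩ := Finset.mem_image.1 hS
        exact Finset.mem_filter.2 ⟨Finset.mem_univ _, hC x hx⟩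
    _ ≤ _ := card_small e

/-- The directions in which no row tight at `x` and `w` changes. -/
def dir (a : ι → E →ₗ[ℝ] ℝ) (b : ι → ℝ) (x w : E) : Submodule ℝ E where
  carrier := {h | ∀ i, a i x = b i → a i w = b i → a i h = 0}
  add_mem' := fun {h h'} h1 h2 i hi hi' => by rw [map_add, h1 i hi hi', h2 i hi hi', add_zero]
  zero_mem' := fun i _ _ => map_zero _
  smul_mem' := fun s h h1 i hi hi' => by rw [map_smul, h1 i hi hi', smul_zero]

omit [FiniteDimensional ℝ E] [Fintype ι] in
theorem Fw_eq {x x' w : E} (h : dir a b x w = dir a b x' w) :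
    Fw a b x w = Fw a b x' w := by
  have key : ∀ x x', dir a b x w = dir a b x' w → Fw a b x w ⊆ Fw a b x' w := by
    intro x x' h z hz
    refine ⟨hz.1, fun i hi => ?_⟩
    have h1 : z - w ∈ dir a b x w := fun j hj hj' => by
      rw [map_sub, hz.2 j ⟨hj, hj'⟩, hj', sub_self]
    rw [h] at h1
    have h2 := h1 i hi.1 hi.2
    rw [map_sub, sub_eq_zero] at h2
    rw [h2]
    exact hi.2
  exact Set.Subset.antisymm (key x x' h) (key x' x h.symm)

/-- The number of steps of a path which stays in the smallest face containing the current vertex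
and `w`. -/
theorem path_bound {e n : ℕ} (hn : Module.finrank ℝ E = n) (hc : Covered e (Pol a b)) {w : E}
    (hw : w ∈ (Pol a b).extremePoints ℝ) {N : ℕ} {x : ℕ → E}
    (hx : ∀ k ≤ N, x k ∈ (Pol a b).extremePoints ℝ)
    (hinj : ∀ j ≤ N, ∀ k ≤ N, x j = x k → j = k)
    (hstep : ∀ k < N, ∀ i, a i (x k) = b i → a i w = b i → a i (x (k + 1)) = b i) :
    N + 1 ≤ (n + 1) * (Fintype.card ι + 1) ^ e := by
  classical
  have hmono : ∀ j k, j ≤ k → k ≤ N → dir a b (x k) w ≤ dir a b (x j) w := by
    intro j k hjk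
    induction k, hjk using Nat.le_induction with
    | base => intro _; exact le_rfl
    | succ k hjk ih =>
      intro hk
      refine le_trans ?_ (ih (by omega))
      intro h hh i h1 h2
      exact hh i (hstep k (by omega) i h1 h2) h2
  set d : ℕ → ℕ := fun k => Module.finrank ℝ (dir a b (x k) w) with hd
  have hdn : ∀ k, d k ≤ n := fun k => by
    rw [← hn]; exact Submodule.finrank_le _
  have hfib : ∀ D, ((Finset.range (N + 1)).filter fun k => d k = D).card ≤
      (Fintype.card ι + 1) ^ e := by
    intro D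
    rcases ((Finset.range (N + 1)).filter fun k => d k = D).eq_empty_or_nonempty with h0 | ⟨k0, hk0⟩
    · rw [h0]; simp
    set K := (Finset.range (N + 1)).filter fun k => d k = D with hK
    have hKm : ∀ k ∈ K, k ≤ N ∧ d k = D := fun k hk => by
      rw [hK, Finset.mem_filter, Finset.mem_range] at hk
      exact ⟨by omega, hk.2⟩
    have hdir : ∀ k ∈ K, dir a b (x k) w = dir a b (x k0) w := by
      intro k hk
      obtain ⟨h1, h2⟩ := hKm k hk
      obtain ⟨h3, h4⟩ := hKm k0 hk0
      rcases le_total k k0 with h | h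
      · exact (Submodule.eq_of_le_of_finrank_eq (hmono k k0 h h3) (h4.trans h2.symm)).symm
      · exact Submodule.eq_of_le_of_finrank_eq (hmono k0 k h h1) (h2.trans h4.symm)
    have hcard : (K.image x).card = K.card := Finset.card_image_of_injOn fun j hj k hk h =>
      hinj j (hKm j hj).1 k (hKm k hk).1 h
    rw [← hcard]
    refine card_phase hc hw (F := Fw a b (x k0) w) fun y hy => ?_
    obtain ⟨k, hk, rfl⟩ := Finset.mem_image.1 hy
    exact ⟨hx k (hKm k hk).1, Fw_eq (hdir k hk)⟩
  calc N + 1 = (Finset.range (N + 1)).card := (Finset.card_range _).symm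
    _ = ∑ D ∈ Finset.range (n + 1), ((Finset.range (N + 1)).filter fun k => d k = D).card :=
        Finset.card_eq_sum_card_fiberwise fun k _ => by
          rw [Finset.mem_coe, Finset.mem_range]
          have := hdn k
          omega
    _ ≤ ∑ _D ∈ Finset.range (n + 1), (Fintype.card ι + 1) ^ e := Finset.sum_le_sum fun D _ => hfib D
    _ = _ := by rw [Finset.sum_const, Finset.card_range, smul_eq_mul]

/-! ### Examples of covered polyhedra -/

omit [FiniteDimensional ℝ E] [Fintype ι] in
theorem face_eq_of_tight [Fintype ι] {G H : Set E} (hG : IsFace (Pol a b) G)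
    (hH : IsFace (Pol a b) H)
    (h : {i | ∀ x ∈ G, a i x = b i} = {i | ∀ x ∈ H, a i x = b i}) : G = H := by
  classical
  have key : ∀ G H : Set E, IsFace (Pol a b) G → IsFace (Pol a b) H →
      {i | ∀ x ∈ G, a i x = b i} = {i | ∀ x ∈ H, a i x = b i} → H ⊆ G := by
    intro G H hG hH h y hy
    -- a relatively interior point of `G`
    have key : ∀ S : Finset ι, ∃ z ∈ G, ∀ i ∈ S, a i z = b i → ∀ x ∈ G, a i x = b i := by
      intro S
      induction S using Finset.induction_on with
      | empty => obtain ⟨x, hx⟩ := hG.1; exact ⟨x, hx, by simp⟩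
      | insert j S hj ih =>
        obtain ⟨z, hz, h1⟩ := ih
        by_cases hjT : ∀ x ∈ G, a j x = b j
        · refine ⟨z, hz, fun i hi hiz => ?_⟩
          rcases Finset.mem_insert.1 hi with rfl | hi
          · exact hjT
          · exact h1 i hi hiz
        · push Not at hjT
          obtain ⟨y, hy, hy1⟩ := hjT
          have hm : (1 / 2 : ℝ) • z + (1 / 2 : ℝ) • y ∈ G :=
            face_convex hG hz hy (by norm_num) (by norm_num) (by norm_num)
          refine ⟨_, hm, fun i hi hiz => ?_⟩
          rw [map_add, map_smul, map_smul, smul_eq_mul, smul_eq_mul] at hiz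
          have h2 := face_sub hG hz i
          have h3 := face_sub hG hy i
          rcases Finset.mem_insert.1 hi with rfl | hi
          · exact absurd (show a i y = b i by linarith) hy1
          · exact h1 i hi (by linarith)
    obtain ⟨z, hz, h1⟩ := key Finset.univ
    refine face_of_tight hG hz (face_sub hH hy) fun i hi => ?_
    have h2 : i ∈ {i | ∀ x ∈ G, a i x = b i} := h1 i (Finset.mem_univ i) hi
    rw [h] at h2
    exact h2 y hy
  exact Set.Subset.antisymm (key H G hH hG h.symm) (key G H hG hH h)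

omit [FiniteDimensional ℝ E] in
theorem finite_faces : {G | IsFace (Pol a b) G}.Finite := by
  classical
  refine Set.Finite.of_finite_image (f := fun G => {i | ∀ x ∈ G, a i x = b i}) (Set.toFinite _) ?_
  intro G hG H hH h
  exact face_eq_of_tight hG hH h

omit [FiniteDimensional ℝ E] in
/-- Every proper face is contained in a facet. -/
theorem exists_facet {F H : Set E} (hH : IsFace (Pol a b) H) (hHF : H ⊂ F) :
    ∃ G, IsFacet (Pol a b) F G ∧ H ⊆ G := by
  have hfin : {G | IsFace (Pol a b) G ∧ H ⊆ G ∧ G ⊂ F}.Finite :=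
    Set.Finite.subset (finite_faces (a := a) (b := b)) fun G hG => hG.1
  obtain ⟨G, hG, hmax⟩ := hfin.exists_maximal ⟨H, hH, Set.Subset.refl _, hHF⟩
  refine ⟨G, ⟨hG.1, hG.2.2, fun K hK hGK hKF => ?_⟩, hG.2.1⟩
  exact Set.Subset.antisymm (hmax ⟨hK, hG.2.1.trans hGK, hKF⟩ hGK) hGK

end Pool.Agent.X239.CV
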