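import Mathlib
set_option autoImplicit false

/-!
# Faces and facets of polyhedra, and covered polyhedra
-/

namespace Pool.Agent.X239.CV

open Set

section Defs

variable {E : Type*} [AddCommGroup E] [Module ℝ E] [TopologicalSpace E]

/-- The nonempty faces of `P`. -/
def IsFace (P F : Set E) : Prop := F.Nonempty ∧ IsExposed ℝ P F

/-- `G` is a facet of the face `F` of `P`: a maximal proper face. -/
def IsFacet (P F G : Set E) : Prop :=
  IsFace P G ∧ G ⊂ F ∧ ∀ H, IsFace P H → G ⊆ H → H ⊂ F → H = G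

/-- `P` is `e`-covered: if two vertices `x`, `y` of a face `F` of `P` are on no common facet of `F`,
then at most `e` facets of `F` contain neither `x` nor `y`. -/
def Covered (e : ℕ) (P : Set E) : Prop :=
  ∀ F, IsFace P F → ∀ x ∈ P.extremePoints ℝ, x ∈ F → ∀ y ∈ P.extremePoints ℝ, y ∈ F →
    (∀ G, IsFacet P F G → ¬ (x ∈ G ∧ y ∈ G)) →
    {G | IsFacet P F G ∧ x ∉ G ∧ y ∉ G}.encard ≤ e

end Defs

variable {E : Type*} [NormedAddCommGroup E] [NormedSpace ℝ E] [FiniteDimensional ℝ E]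
  {ι : Type*} [Fintype ι] (a : ι → E →ₗ[ℝ] ℝ) (b : ι → ℝ)

/-- The polyhedron. -/
def Pol : Set E := {x | ∀ i, a i x ≤ b i}

/-- The points of the polyhedron where the rows `T` are tight. -/
def PT (T : Set ι) : Set E := {x | x ∈ Pol a b ∧ ∀ i ∈ T, a i x = b i}

variable {a b}

omit [FiniteDimensional ℝ E] in
theorem small_step {x h : E} (hx : ∀ i, a i x < b i ∨ (a i x ≤ b i ∧ a i h = 0)) :
    ∃ ε : ℝ, 0 < ε ∧ x + ε • h ∈ Pol a b := by
  classical
  have key : ∀ S : Finset ι, ∃ ε : ℝ, 0 < ε ∧ ∀ i ∈ S, ∀ t : ℝ, 0 ≤ t → t ≤ ε →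
      a i x + t * a i h ≤ b i := by
    intro S
    induction S using Finset.induction_on with
    | empty => exact ⟨1, one_pos, by simp⟩
    | insert j S hj ih =>
      obtain ⟨ε, h0, h1⟩ := ih
      rcases hx j with hlt | ⟨hle, hz⟩
      · refine ⟨min ε ((b j - a j x) / (|a j h| + 1)), lt_min h0 (div_pos (by linarith)
          (by positivity)), fun i hi t ht0 ht => ?_⟩
        rcases Finset.mem_insert.1 hi with rfl | hi
        · have h2 : t ≤ (b i - a i x) / (|a i h| + 1) := ht.trans (min_le_right _ _)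
          rw [le_div_iff₀ (by positivity)] at h2
          have h3 := le_abs_self (a i h)
          nlinarith [mul_le_mul_of_nonneg_left h3 ht0]
        · exact h1 i hi t ht0 (ht.trans (min_le_left _ _))
      · refine ⟨ε, h0, fun i hi t ht0 ht => ?_⟩
        rcases Finset.mem_insert.1 hi with rfl | hi
        · rw [hz, mul_zero, add_zero]; exact hle
        · exact h1 i hi t ht0 ht
  obtain ⟨ε, h0, h1⟩ := key Finset.univ
  refine ⟨ε, h0, fun i => ?_⟩
  rw [map_add, map_smul, smul_eq_mul]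
  exact h1 i (Finset.mem_univ i) ε h0.le le_rfl

omit [FiniteDimensional ℝ E] [Fintype ι] in
theorem pol_convex : Convex ℝ (Pol a b) := by
  intro x hx y hy s t hs ht hst i
  rw [map_add, map_smul, map_smul, smul_eq_mul, smul_eq_mul]
  have h1 := mul_le_mul_of_nonneg_left (hx i) hs
  have h2 := mul_le_mul_of_nonneg_left (hy i) ht
  have h3 : s * b i + t * b i = b i := by rw [← add_mul, hst, one_mul]
  linarith

omit [FiniteDimensional ℝ E] in
/-- A face contains, with a point `z`, all points where the rows tight at `z` are tight. -/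
theorem face_of_tight {G : Set E} (hG : IsFace (Pol a b) G) {z x : E} (hz : z ∈ G)
    (hx : x ∈ Pol a b) (h : ∀ i, a i z = b i → a i x = b i) : x ∈ G := by
  obtain ⟨l, hl⟩ := hG.2 hG.1
  rw [hl] at hz ⊢
  refine ⟨hx, fun y hy => (hz.2 y hy).trans ?_⟩
  obtain ⟨ε, h0, h1⟩ := small_step (a := a) (b := b) (x := z) (h := z - x) (fun i => by
    rcases (hz.1 i).lt_or_eq with h2 | h2
    · exact Or.inl h2
    · exact Or.inr ⟨h2.le, by rw [map_sub, h2, h i h2, sub_self]⟩)
  have h2 := hz.2 _ h1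
  rw [map_add, map_smul, map_sub, smul_eq_mul] at h2
  nlinarith

omit [FiniteDimensional ℝ E] [Fintype ι] in
theorem face_convex {G : Set E} (hG : IsFace (Pol a b) G) : Convex ℝ G :=
  hG.2.convex pol_convex

omit [FiniteDimensional ℝ E] [Fintype ι] in
theorem face_sub {G : Set E} (hG : IsFace (Pol a b) G) : G ⊆ Pol a b := hG.2.subset

theorem isFace_PT {T : Set ι} (h : (PT a b T).Nonempty) : IsFace (Pol a b) (PT a b T) := by
  classical
  refine ⟨h, fun _ => ?_⟩
  set l : E →ₗ[ℝ] ℝ := ∑ i with i ∈ T, a i with hl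
  have hle : ∀ x ∈ Pol a b, l x ≤ ∑ i with i ∈ T, b i := by
    intro x hx
    rw [hl, LinearMap.sum_apply]
    exact Finset.sum_le_sum fun i _ => hx i
  have heq : ∀ x ∈ Pol a b, l x = ∑ i with i ∈ T, b i ↔ ∀ i ∈ T, a i x = b i := by
    intro x hx
    rw [hl, LinearMap.sum_apply]
    rw [Finset.sum_eq_sum_iff_of_le fun i _ => hx i]
    simp
  refine ⟨LinearMap.toContinuousLinearMap l, ?_⟩
  obtain ⟨x0, h1, h2⟩ := h
  ext x
  simp only [LinearMap.coe_toContinuousLinearMap']
  constructor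
  · rintro ⟨hx, hxT⟩
    refine ⟨hx, fun y hy => ?_⟩
    rw [(heq x hx).2 hxT]
    exact hle y hy
  · rintro ⟨hx, hxl⟩
    refine ⟨hx, (heq x hx).1 (le_antisymm (hle x hx) ?_)⟩
    rw [← (heq x0 h1).2 h2]
    exact hxl x0 h1

/-- The smallest face containing `x` and `w`. -/
def Fw (a : ι → E →ₗ[ℝ] ℝ) (b : ι → ℝ) (x w : E) : Set E := PT a b {i | a i x = b i ∧ a i w = b i}

omit [FiniteDimensional ℝ E] [Fintype ι] in
theorem left_mem_Fw {x w : E} (hx : x ∈ Pol a b) : x ∈ Fw a b x w := ⟨hx, fun _ hi => hi.1⟩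

omit [FiniteDimensional ℝ E] [Fintype ι] in
theorem right_mem_Fw {x w : E} (hw : w ∈ Pol a b) : w ∈ Fw a b x w := ⟨hw, fun _ hi => hi.2⟩

theorem isFace_Fw {x w : E} (hx : x ∈ Pol a b) : IsFace (Pol a b) (Fw a b x w) :=
  isFace_PT ⟨x, left_mem_Fw hx⟩

omit [FiniteDimensional ℝ E] in
theorem Fw_sub {x w : E} {G : Set E} (hG : IsFace (Pol a b) G) (hx : x ∈ G) (hw : w ∈ G) :
    Fw a b x w ⊆ G := by
  have hz : (1 / 2 : ℝ) • x + (1 / 2 : ℝ) • w ∈ G :=
    face_convex hG hx hw (by norm_num) (by norm_num) (by norm_num)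
  intro y hy
  refine face_of_tight hG hz hy.1 fun i hi => hy.2 i ?_
  rw [map_add, map_smul, map_smul, smul_eq_mul, smul_eq_mul] at hi
  have h1 := face_sub hG hx i
  have h2 := face_sub hG hw i
  constructor <;> linarith

/-! ### The irredundant rows of a face -/

/-- Irredundant rows of the face `F`. -/
structure Irr (a : ι → E →ₗ[ℝ] ℝ) (b : ι → ℝ) (F : Set E) (R : Finset ι) : Prop where
  facet : ∀ r ∈ R, IsFacet (Pol a b) F {x | x ∈ F ∧ a r x = b r}
  inj : ∀ r ∈ R, ∀ r' ∈ R, {x | x ∈ F ∧ a r x = b r} = {x | x ∈ F ∧ a r' x = b r'} → r = r'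
  sep : ∀ x ∈ (Pol a b).extremePoints ℝ, x ∈ F → ∀ x' ∈ F, x ≠ x' →
    ∃ r ∈ R, a r x = b r ∧ a r x' < b r
  dim : ∀ x ∈ (Pol a b).extremePoints ℝ, x ∈ F → ∀ h : E,
    (∀ i, (∀ y ∈ F, a i y = b i) → a i h = 0) → (∀ r ∈ R, a r x = b r → a r h = 0) → h = 0

theorem exists_irr {T : Set ι} (hne : (PT a b T).Nonempty) :
    ∃ R : Finset ι, Irr a b (PT a b T) R := by
  classical
  set F := PT a b T with hF
  -- the rows tight on `F`
  set Ts : Set ι := {i | ∀ x ∈ F, a i x = b i} with hTs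
  have hTTs : T ⊆ Ts := fun i hi x hx => hx.2 i hi
  -- a relatively interior point
  obtain ⟨z0, hz0F, hz0⟩ : ∃ z0 ∈ F, ∀ i, i ∉ Ts → a i z0 < b i := by
    have key : ∀ S : Finset ι, ∃ z ∈ F, ∀ i ∈ S, i ∉ Ts → a i z < b i := by
      intro S
      induction S using Finset.induction_on with
      | empty => obtain ⟨x, hx⟩ := hne; exact ⟨x, hx, by simp⟩
      | insert j S hj ih =>
        obtain ⟨z, hz, h1⟩ := ih
        by_cases hjT : j ∈ Ts
        · refine ⟨z, hz, fun i hi hiT => ?_⟩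
          rcases Finset.mem_insert.1 hi with rfl | hi
          · exact absurd hjT hiT
          · exact h1 i hi hiT
        · have : ∃ y ∈ F, a j y ≠ b j := by
            by_contra hcon
            push Not at hcon
            exact hjT hcon
          obtain ⟨y, hy, hy1⟩ := this
          have hm : (1 / 2 : ℝ) • z + (1 / 2 : ℝ) • y ∈ F := by
            refine ⟨pol_convex hz.1 hy.1 (by norm_num) (by norm_num) (by norm_num), fun i hi => ?_⟩
            rw [map_add, map_smul, map_smul, hz.2 i hi, hy.2 i hi, smul_eq_mul]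
            ring
          refine ⟨_, hm, fun i hi hiT => ?_⟩
          rw [map_add, map_smul, map_smul, smul_eq_mul, smul_eq_mul]
          rcases Finset.mem_insert.1 hi with rfl | hi
          · have h2 := hz.1 i
            have h3 := lt_of_le_of_ne (hy.1 i) hy1
            linarith
          · have h2 := h1 i hi hiT
            have h3 := hy.1 i
            linarith
    obtain ⟨z, hz, h1⟩ := key Finset.univ
    exact ⟨z, hz, fun i => h1 i (Finset.mem_univ i)⟩
  -- systems of rows which describe `F`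
  let Q : Finset ι → Prop := fun R => (∀ r ∈ R, r ∉ Ts) ∧
    ∀ x, (∀ i ∈ Ts, a i x = b i) → (∀ i ∈ R, a i x ≤ b i) → x ∈ F
  have hQ : ∃ R, Q R := by
    refine ⟨Finset.univ.filter fun i => i ∉ Ts, fun r hr => (Finset.mem_filter.1 hr).2,
      fun x h1 h2 => ⟨fun i => ?_, fun i hi => h1 i (hTTs hi)⟩⟩
    by_cases hi : i ∈ Ts
    · exact (h1 i hi).le
    · exact h2 i (Finset.mem_filter.2 ⟨Finset.mem_univ i, hi⟩)
  obtain ⟨R, ⟨hR1, hR2⟩, hmin⟩ : ∃ R, Q R ∧ ∀ R', Q R' → R.card ≤ R'.card := by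
    obtain ⟨R, hR, h⟩ := WellFounded.has_min (measure Finset.card).wf {R | Q R} hQ
    exact ⟨R, hR, fun R' hR' => not_lt.1 (h R' hR')⟩
  -- points in the relative interior of the facets
  have hz : ∀ r ∈ R, ∃ z ∈ F, a r z = b r ∧ ∀ i ∈ R, i ≠ r → a i z < b i := by
    intro r hr
    have h1 : ¬ Q (R.erase r) := fun h => by
      have := hmin _ h
      have := Finset.card_erase_lt_of_mem hr
      omega
    have h2 : ∃ y, (∀ i ∈ Ts, a i y = b i) ∧ (∀ i ∈ R.erase r, a i y ≤ b i) ∧ y ∉ F := by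
      by_contra hcon
      push Not at hcon
      exact h1 ⟨fun i hi => hR1 i (Finset.mem_of_mem_erase hi), hcon⟩
    obtain ⟨y, hy1, hy2, hy3⟩ := h2
    have hy4 : b r < a r y := by
      by_contra hcon
      push Not at hcon
      refine hy3 (hR2 y hy1 fun i hi => ?_)
      by_cases h : i = r
      · rw [h]; exact hcon
      · exact hy2 i (Finset.mem_erase.2 ⟨h, hi⟩)
    have h0 := hz0 r (hR1 r hr)
    have hden : 0 < a r y - a r z0 := by linarith
    set t := (b r - a r z0) / (a r y - a r z0) with ht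
    have ht0 : 0 < t := div_pos (by linarith) hden
    have ht1 : t < 1 := (div_lt_one hden).2 (by linarith)
    have hval : ∀ i, a i (z0 + t • (y - z0)) = (1 - t) * a i z0 + t * a i y := fun i => by
      rw [map_add, map_smul, map_sub, smul_eq_mul]; ring
    have hr0 : a r (z0 + t • (y - z0)) = b r := by
      rw [map_add, map_smul, map_sub, smul_eq_mul, ht, div_mul_cancel₀ _ hden.ne']
      ring
    have hlt : ∀ i ∈ R, i ≠ r → a i (z0 + t • (y - z0)) < b i := by
      intro i hi hir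
      rw [hval]
      have h3 := hz0 i (hR1 i hi)
      have h4 := hy2 i (Finset.mem_erase.2 ⟨hir, hi⟩)
      nlinarith
    refine ⟨_, hR2 _ (fun i hi => ?_) (fun i hi => ?_), hr0, hlt⟩
    · rw [hval, hy1 i hi, hi z0 hz0F]; ring
    · by_cases h : i = r
      · rw [h]; exact hr0.le
      · exact (hlt i hi h).le
  -- rows tight at a point where no row of `R` is tight
  have hint : ∀ u ∈ F, (∀ i ∈ R, a i u < b i) → ∀ i, a i u = b i → i ∈ Ts := by
    intro u hu hlt i hi
    by_contra hiT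
    obtain ⟨ε, h0, h1⟩ : ∃ ε : ℝ, 0 < ε ∧ u + ε • (u - z0) ∈ F := by
      obtain ⟨ε, h0, h1⟩ : ∃ ε : ℝ, 0 < ε ∧ ∀ i ∈ R, a i (u + ε • (u - z0)) ≤ b i := by
        obtain ⟨ε, h0, h1⟩ := small_step (a := fun i : R => a i) (b := fun i : R => b i) (x := u)
          (h := u - z0) (fun i => Or.inl (hlt i i.2))
        exact ⟨ε, h0, fun i hi => h1 ⟨i, hi⟩⟩
      refine ⟨ε, h0, hR2 _ (fun i hi => ?_) h1⟩
      rw [map_add, map_smul, map_sub, hi u hu, hi z0 hz0F, sub_self, smul_zero, add_zero]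
    have h2 := h1.1 i
    rw [map_add, map_smul, map_sub, hi, smul_eq_mul] at h2
    have h3 := hz0 i hiT
    have h4 : 0 < ε * (b i - a i z0) := mul_pos h0 (by linarith)
    linarith
  have hPT : ∀ r, {x | x ∈ F ∧ a r x = b r} = PT a b (insert r T) := by
    intro r
    ext x
    constructor
    · rintro ⟨⟨h1, h2⟩, h3⟩
      refine ⟨h1, fun i hi => ?_⟩
      rcases Set.mem_insert_iff.1 hi with rfl | hi
      · exact h3
      · exact h2 i hi
    · rintro ⟨h1, h2⟩
      exact ⟨⟨h1, fun i hi => h2 i (Set.mem_insert_of_mem _ hi)⟩, h2 r (Set.mem_insert _ _)⟩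
  refine ⟨R, ⟨?_, ?_, ?_, ?_⟩⟩
  · intro r hr
    obtain ⟨z, hzF, hz1, hz2⟩ := hz r hr
    have hface : IsFace (Pol a b) {x | x ∈ F ∧ a r x = b r} := by
      rw [hPT]
      refine isFace_PT ⟨z, ?_⟩
      rw [← hPT]
      exact ⟨hzF, hz1⟩
    refine ⟨hface, ⟨fun x hx => hx.1, fun h => ?_⟩, fun H hH hGH hHF => ?_⟩
    · have := (h hz0F).2
      have := hz0 r (hR1 r hr)
      linarith
    · refine Set.Subset.antisymm (fun y hy => ?_) hGH
      by_contra hcon
      have hyF := hHF.1 hy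
      have hy1 : a r y < b r := lt_of_le_of_ne (hyF.1 r) fun h => hcon ⟨hyF, h⟩
      have hzH : z ∈ H := hGH ⟨hzF, hz1⟩
      have hu : (1 / 2 : ℝ) • y + (1 / 2 : ℝ) • z ∈ H :=
        face_convex hH hy hzH (by norm_num) (by norm_num) (by norm_num)
      have hlt : ∀ i ∈ R, a i ((1 / 2 : ℝ) • y + (1 / 2 : ℝ) • z) < b i := by
        intro i hi
        rw [map_add, map_smul, map_smul, smul_eq_mul, smul_eq_mul]
        by_cases h : i = r
        · subst h; linarith
        · have h1 := hz2 i hi h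
          have h2 := hyF.1 i
          linarith
      refine hHF.2 fun x hx => ?_
      exact face_of_tight hH hu hx.1 fun i hi => hint _ (hHF.1 hu) hlt i hi x hx
  · intro r hr r' hr' h
    by_contra hne
    obtain ⟨z, hzF, hz1, hz2⟩ := hz r hr
    have h1 : z ∈ {x | x ∈ F ∧ a r x = b r} := ⟨hzF, hz1⟩
    rw [h] at h1
    have := hz2 r' hr' fun h => hne h.symm
    exact absurd h1.2 this.ne
  · intro x hx hxF x' hx' hne
    by_contra hcon
    push Not at hcon
    obtain ⟨ε, h0, h1⟩ : ∃ ε : ℝ, 0 < ε ∧ ∀ i ∈ R, a i (x + ε • (x - x')) ≤ b i := by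
      obtain ⟨ε, h0, h1⟩ := small_step (a := fun i : R => a i) (b := fun i : R => b i) (x := x)
        (h := x - x') (fun i => by
          rcases (hxF.1 (i : ι)).lt_or_eq with h2 | h2
          · exact Or.inl h2
          · right
            refine ⟨h2.le, ?_⟩
            have h3 := hcon i i.2 h2
            have h4 := le_antisymm (hx'.1 i) h3
            rw [map_sub, h2, h4, sub_self])
      exact ⟨ε, h0, fun i hi => h1 ⟨i, hi⟩⟩
    have h2 : x + ε • (x - x') ∈ F := by
      refine hR2 _ (fun i hi => ?_) h1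
      rw [map_add, map_smul, map_sub, hi x hxF, hi x' hx', sub_self, smul_zero, add_zero]
    have h3 := hx.2 hx'.1 h2.1 (by
      refine ⟨ε / (1 + ε), 1 / (1 + ε), by positivity, by positivity, by field_simp; ring, ?_⟩
      rw [smul_add, smul_smul, ← add_assoc, smul_sub]
      have e1 : (1 / (1 + ε) * ε) = ε / (1 + ε) := by ring
      rw [e1]
      have e2 : (1 / (1 + ε)) • x + (ε / (1 + ε)) • x = x := by
        rw [← add_smul, ← add_div, div_self (by positivity), one_smul]
      calc (ε / (1 + ε)) • x' + (1 / (1 + ε)) • x + ((ε / (1 + ε)) • x - (ε / (1 + ε)) • x')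
          = (1 / (1 + ε)) • x + (ε / (1 + ε)) • x := by abel
        _ = x := e2)
    exact hne h3.symm
  · intro x hx hxF h hh1 hh2
    obtain ⟨ε, h0, h1⟩ : ∃ ε : ℝ, 0 < ε ∧ ∀ i ∈ R, a i (x + ε • h) ≤ b i := by
      obtain ⟨ε, h0, h1⟩ := small_step (a := fun i : R => a i) (b := fun i : R => b i) (x := x)
        (h := h) (fun i => by
          rcases (hxF.1 (i : ι)).lt_or_eq with h2 | h2
          · exact Or.inl h2
          · exact Or.inr ⟨h2.le, hh2 i i.2 h2⟩)
      exact ⟨ε, h0, fun i hi => h1 ⟨i, hi⟩⟩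
    obtain ⟨δ, d0, d1⟩ : ∃ ε : ℝ, 0 < ε ∧ ∀ i ∈ R, a i (x + ε • (-h)) ≤ b i := by
      obtain ⟨ε, h0, h1⟩ := small_step (a := fun i : R => a i) (b := fun i : R => b i) (x := x)
        (h := -h) (fun i => by
          rcases (hxF.1 (i : ι)).lt_or_eq with h2 | h2
          · exact Or.inl h2
          · exact Or.inr ⟨h2.le, by rw [map_neg, hh2 i i.2 h2, neg_zero]⟩)
      exact ⟨ε, h0, fun i hi => h1 ⟨i, hi⟩⟩
    have h2 : x + ε • h ∈ F := by
      refine hR2 _ (fun i hi => ?_) h1
      rw [map_add, map_smul, hh1 i hi, smul_zero, add_zero]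
      exact hi x hxF
    have h3 : x + δ • (-h) ∈ F := by
      refine hR2 _ (fun i hi => ?_) d1
      rw [map_add, map_smul, map_neg, hh1 i hi, neg_zero, smul_zero, add_zero]
      exact hi x hxF
    have h4 := hx.2 h2.1 h3.1 (by
      refine ⟨δ / (ε + δ), ε / (ε + δ), by positivity, by positivity, by field_simp; ring, ?_⟩
      rw [smul_add, smul_add, smul_smul, smul_smul, smul_neg]
      have e1 : ε / (ε + δ) * δ = δ / (ε + δ) * ε := by ring
      rw [e1]
      have e2 : (δ / (ε + δ)) • x + (ε / (ε + δ)) • x = x := by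
        rw [← add_smul, ← add_div, add_comm δ, div_self (by positivity), one_smul]
      calc (δ / (ε + δ)) • x + (δ / (ε + δ) * ε) • h + ((ε / (ε + δ)) • x +
            -((δ / (ε + δ) * ε) • h)) = (δ / (ε + δ)) • x + (ε / (ε + δ)) • x := by abel
        _ = x := e2)
    rw [add_eq_left] at h4
    exact (smul_eq_zero.1 h4).resolve_left h0.ne'

end Pool.Agent.X239.CV
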