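import Pool.Agent.X239.CV.Path
import Pool.Agent.Y644.QW.PolyW
import Pool.Agent.Y644.QS.Final
set_option autoImplicit false

/-!
# Polynomial time
-/

namespace Pool.Agent.NPC.X239CV

open Pool.Agent.Y644.QS Pool.Agent.Y644.QW Pool.Agent.H687R2.LLL Pool.Agent.NPC.H532.RP
  Pool.Agent.NPC.Y644 Pool.Agent.X239.CV

/-- The answers of the rule: the next vertex, or `none` (the vertex is optimal), or the direction of
an unbounded improving edge. -/
abbrev Ans : Type := List ℚ ⊕ Option (List ℚ)

/-- The answer for the integer vector `u`. -/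
def ansOf (n : ℕ) (u : List ℤ) : Ans :=
  if 0 < u.getD n 0 then
    Sum.inl ((List.range n).map fun j => mkRat (u.getD j 0) (u.getD n 0).toNat)
  else Sum.inr (some ((List.range n).map fun j => mkRat (u.getD j 0) 1))

/-- The rule on lists. -/
def nxtL (x : Inp) : Ans := (nxtV x).elim (Sum.inr none) fun u => ansOf x.2.2.1.length u

/-- The rule on bit strings. -/
def nxtB (s : List Bool) : Ans := (unbits Inp s).elim (Sum.inr none) fun x => nxtL x

variable {α : Type} [TEnc α]

theorem poly_com {J : α → List (List ℤ)} {v w : α → List ℤ} (hJ : Poly J) (hv : Poly v)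
    (hw : Poly w) : Poly (fun a => com (J a) (v a) (w a)) := by
  unfold com
  exact Poly.filter (p := fun a r => decide (dot r (v a) = 0) && decide (dot r (w a) = 0)) hJ
    (by fun_prop)

attribute [local fun_prop] poly_com

theorem poly_rowsJ : Poly rowsJ := by
  unfold rowsJ
  have h1 := poly_crow
  have h2 := poly_rowsI
  exact poly_jl h1 h2

theorem poly_nxtV : Poly nxtV := by
  unfold nxtV
  have h1 := poly_crow
  have h2 := poly_rowsJ
  have h3 := poly_startV
  have h4 : Poly (fun x : Inp => optw (crow x) [] (rowsJ x)) :=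
    poly_optw h1 (Poly.const _) h2
  exact poly_improve h1 (poly_com h2 h3 h4) h2 h3

theorem poly_ansOf {n : α → ℕ} {u : α → List ℤ} (hn : UPoly n) (hu : Poly u) :
    Poly (fun a => ansOf (n a) (u a)) := by
  have hnP : Poly n := hn.toPoly
  unfold ansOf
  have h1 : Poly (fun a => (List.range (n a)).map fun j =>
      mkRat ((u a).getD j 0) ((u a).getD (n a) 0).toNat) := by
    have h2 : Poly (fun q : α × ℕ => mkRat ((u q.1).getD q.2 0)
        ((u q.1).getD (n q.1) 0).toNat) := by fun_prop
    exact Poly.map (F := fun a j => mkRat ((u a).getD j 0) ((u a).getD (n a) 0).toNat)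
      (UPoly.range hn) h2
  have h3 : Poly (fun a => (List.range (n a)).map fun j => mkRat ((u a).getD j 0) 1) := by
    have h2 : Poly (fun q : α × ℕ => mkRat ((u q.1).getD q.2 0) 1) := by fun_prop
    exact Poly.map (F := fun a j => mkRat ((u a).getD j 0) 1) (UPoly.range hn) h2
  have h4 : Poly (fun a => decide (0 < (u a).getD (n a) 0)) := by fun_prop
  exact Poly.ite h4 (Poly.inl h1) (Poly.inr (Poly.some h3))

theorem poly_nxtL : Poly nxtL := by
  unfold nxtL
  have h1 : Poly (fun p : Inp × List ℤ => ansOf p.1.2.2.1.length p.2) :=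
    poly_ansOf (by fun_prop) (by fun_prop)
  exact Poly.optElim (h := fun (x : Inp) u => ansOf x.2.2.1.length u) poly_nxtV (Poly.const _) h1

theorem poly_nxtB : Poly nxtB := by
  unfold nxtB
  exact Poly.optElim (h := fun _ x => nxtL x) poly_unbits (Poly.const _)
    (poly_nxtL.comp (Poly.snd Poly.id))

/-! ### The whole path -/

/-- The path so far (in reverse order), and the final answer. -/
abbrev St : Type := List (List ℚ) × Option (Option (List ℚ))

/-- The linear program of `x` with the vertex `y`. -/
def repl (x : Inp) (y : List ℚ) : Inp := (x.1, x.2.1, x.2.2.1, y)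

/-- One step. -/
def stp (x : Inp) (s : St) : St :=
  s.2.elim ((nxtL (repl x (s.1.head?.getD []))).elim (fun y => (y :: s.1, none))
    fun d => (s.1, some d)) fun _ => s

theorem poly_stp : Poly fun p : Inp × St => stp p.1 p.2 := by
  unfold stp
  have h1 : Poly fun p : Inp × St => nxtL (repl p.1 (p.2.1.head?.getD [])) := by
    have h2 : Poly fun p : Inp × St => p.2.1.head?.getD [] :=
      Poly.optGetD (Poly.head? (by fun_prop)) (Poly.const _)
    have h3 : Poly fun p : Inp × St => repl p.1 (p.2.1.head?.getD []) := by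
      unfold repl
      exact Poly.pair (by fun_prop) (Poly.pair (by fun_prop) (Poly.pair (by fun_prop) h2))
    exact poly_nxtL.comp h3
  have h4 : Poly fun p : Inp × St => ((nxtL (repl p.1 (p.2.1.head?.getD []))).elim
      (fun y => (y :: p.2.1, none)) fun d => (p.2.1, some d) : St) :=
    Poly.sumElim (g := fun (p : Inp × St) (y : List ℚ) => ((y :: p.2.1, none) : St))
      (h := fun (p : Inp × St) (d : Option (List ℚ)) => ((p.2.1, some d) : St)) h1
      (by fun_prop) (by fun_prop)
  exact Poly.optElim (h := fun (p : Inp × St) _ => p.2) (by fun_prop) h4 (by fun_prop)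

theorem nxt_bound : ∃ q : Polynomial ℕ, ∀ (x : Inp) (y : List ℚ),
    sz (nxtL (repl x y)) ≤ q.eval (sz x) := by
  obtain ⟨pV, hpV⟩ := normV_bound
  obtain ⟨qC, hqC⟩ := poly_crow.sz_le
  obtain ⟨qJ, hqJ⟩ := poly_rowsJ.sz_le
  have hA : Poly (fun p : Inp × List ℤ => ansOf p.1.2.2.1.length p.2) :=
    poly_ansOf (by fun_prop) (by fun_prop)
  obtain ⟨qA, hqA⟩ := hA.sz_le
  refine ⟨qA.comp (Polynomial.X + pV.comp (qC + qJ + qJ) + 1) +
    Polynomial.C (sz (Sum.inr none : Ans)), ?_⟩
  intro x y
  unfold nxtL
  rw [Polynomial.eval_add, Polynomial.eval_C]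
  cases h : nxtV (repl x y) with
  | none => exact Nat.le_add_left _ _
  | some u =>
    rw [Option.elim_some]
    have hu : sz u ≤ pV.eval (qC.eval (sz x) + qJ.eval (sz x) + qJ.eval (sz x)) := by
      unfold nxtV improve at h
      split_ifs at h with hc
      rw [Option.some.injEq] at h
      rw [← h]
      refine (hpV _ _ _ _).trans (eval_mono pV ?_)
      have h1 : sz (crow (repl x y)) ≤ qC.eval (sz x) := hqC x
      have h2 : sz (rowsJ (repl x y)) ≤ qJ.eval (sz x) := hqJ x
      have h3 : sz (com (rowsJ (repl x y)) (startV (repl x y))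
          (optw (crow (repl x y)) [] (rowsJ (repl x y)))) ≤ sz (rowsJ (repl x y)) :=
        sz_filter_le _ _
      omega
    refine le_trans ?_ (Nat.le_add_right _ _)
    have h4 := hqA (x, u)
    refine h4.trans ?_
    rw [Polynomial.eval_comp]
    refine eval_mono qA ?_
    rw [sz_pair]
    simp only [Polynomial.eval_add, Polynomial.eval_comp, Polynomial.eval_X, Polynomial.eval_one]
    omega

theorem stp_bound : ∃ q : Polynomial ℕ, ∀ (x : Inp) (s : St),
    sz (stp x s) ≤ sz s + q.eval (sz x) := by
  obtain ⟨q, hq⟩ := nxt_bound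
  have hin : ∀ y : List ℚ, sz y ≤ sz (Sum.inl y : Ans) := fun y => by
    rw [sz_inl]; omega
  have hin2 : ∀ d : Option (List ℚ), sz d ≤ sz (Sum.inr d : Ans) := fun d => by
    rw [sz_inr]; omega
  refine ⟨q + 20, fun x s => ?_⟩
  obtain ⟨P, o⟩ := s
  unfold stp
  rw [Polynomial.eval_add]
  have e20 : (20 : Polynomial ℕ).eval (sz x) = 20 := by simp
  rw [e20]
  cases o with
  | some d => rw [Option.elim_some]; omega
  | none =>
    rw [Option.elim_none]
    have h := hq x (P.head?.getD [])
    simp only
    cases hn : nxtL (repl x (P.head?.getD [])) with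
    | inl y =>
      rw [hn] at h
      have h1 := hin y
      rw [Sum.elim_inl, sz_pair, sz_pair, sz_list_cons]
      omega
    | inr d =>
      rw [hn] at h
      have h1 := hin2 d
      have h2 : sz (some d) ≤ sz d + 5 := by rw [sz_some]; omega
      have h3 := sz_pos (none : Option (Option (List ℚ)))
      rw [Sum.elim_inr, sz_pair, sz_pair]
      omega

theorem iter_bound {q : Polynomial ℕ} (hq : ∀ (x : Inp) (s : St), sz (stp x s) ≤ sz s + q.eval (sz x))
    (x : Inp) (s : St) (k : ℕ) : sz ((stp x)^[k] s) ≤ sz s + k * q.eval (sz x) := by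
  induction k with
  | zero => simp
  | succ k ih =>
    rw [Function.iterate_succ_apply', Nat.succ_mul]
    have := hq x ((stp x)^[k] s)
    omega

theorem poly_run {K : α → ℕ} {x : α → Inp} (hx : Poly x) (hK : UPoly K) :
    Poly fun a => (stp (x a))^[K a] ([(x a).2.2.2], none) := by
  obtain ⟨q, hq⟩ := stp_bound
  obtain ⟨qx, hqx⟩ := hx.sz_le
  obtain ⟨w, hw⟩ := Poly.sz_le (show Poly (fun a => List.replicate (K a) ()) from hK)
  have hs : Poly (fun a => (([(x a).2.2.2], none) : St)) := by fun_prop
  obtain ⟨q4, hq4⟩ := hs.sz_le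
  refine NPC.Poly.iterU (F := fun a s => stp (x a) s) hK hs
    (poly_stp.comp (f := fun p : α × St => (x p.1, p.2)) (by fun_prop))
    (q4 + w * q.comp qx) ?_
  intro a k hk
  refine (iter_bound hq (x a) _ k).trans ?_
  have h5 : K a ≤ w.eval (sz a) := by
    have := length_lt_sz (List.replicate (K a) ())
    rw [List.length_replicate] at this
    have := hw a
    omega
  rw [Polynomial.eval_add, Polynomial.eval_mul, Polynomial.eval_comp]
  exact Nat.add_le_add (hq4 a) (Nat.mul_le_mul (hk.trans h5) (eval_mono q (hqx a)))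

/-- The output for a state. -/
def outS (s : St) : Outp := (s.1.reverse, s.2.getD none)

/-- The algorithm on bit strings, with `K` steps. -/
def runB (s : List Bool) (K : ℕ) : Outp :=
  (unbits Inp s).elim ([], none) fun x => outS ((stp x)^[K] ([x.2.2.2], none))

theorem poly_runB {s : α → List Bool} {K : α → ℕ} (hs : Poly s) (hK : UPoly K) :
    Poly fun a => runB (s a) (K a) := by
  unfold runB
  have h1 : Poly (fun a => unbits Inp (s a)) := poly_unbits.comp hs
  have h2 : Poly (fun p : α × Inp => (stp p.2)^[K p.1] ([p.2.2.2.2], none)) :=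
    poly_run (Poly.snd Poly.id) (by fun_prop)
  have h3 : Poly (fun p : α × Inp => outS ((stp p.2)^[K p.1] ([p.2.2.2.2], none))) := by
    have h4 : Poly outS := by
      unfold outS
      exact Poly.pair (by fun_prop) (Poly.optGetD (Poly.snd Poly.id) (Poly.const _))
    exact h4.comp h2
  exact Poly.optElim (h := fun a y => outS ((stp y)^[K a] ([y.2.2.2], none))) h1 (Poly.const _) h3

/-! ### Correctness -/

variable {m n : ℕ} {A : Fin m → Fin n → ℚ} {b : Fin m → ℚ} {c v : Fin n → ℚ}

theorem nxtL_inp : nxtL (Pool.Agent.Y644.QS.inp A b c v) =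
    Sum.map List.ofFn (Option.map List.ofFn) (nxt A b c v) := by
  unfold nxtL nxt
  have hn : (Pool.Agent.Y644.QS.inp A b c v).2.2.1.length = n := by
    simp [Pool.Agent.Y644.QS.inp]
  rw [hn]
  cases nxtV (Pool.Agent.Y644.QS.inp A b c v) with
  | none => rfl
  | some u =>
    rw [Option.elim_some, Option.elim_some]
    unfold ansOf
    by_cases hu : 0 < u.getD n 0
    · rw [if_pos hu, if_pos hu, Sum.map_inl, ofFn_xq hu]
    · rw [if_neg hu, if_neg hu, Sum.map_inr, Option.map_some, ofFn_dq]

theorem nxtB_inp : nxtB (bits (Pool.Agent.Y644.QS.inp A b c v)) =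
    Sum.map List.ofFn (Option.map List.ofFn) (nxt A b c v) := by
  unfold nxtB
  rw [unbits_bits, Option.elim_some, nxtL_inp]

theorem run_path {N : ℕ} {x : ℕ → Fin n → ℚ} {d : Option (Fin n → ℚ)}
    (hx0 : x 0 = v) (hq : ∀ k < N, nxt A b c (x k) = Sum.inl (x (k + 1)))
    (hr : nxt A b c (x N) = Sum.inr d) {K : ℕ} (hK : N + 1 ≤ K) :
    runB (bits (Pool.Agent.Y644.QS.inp A b c v)) K =
      ((List.range (N + 1)).map (fun k => List.ofFn (x k)), d.map List.ofFn) := by
  unfold runB
  rw [unbits_bits, Option.elim_some]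
  set X := Pool.Agent.Y644.QS.inp A b c v with hX
  have hrepl : ∀ y : Fin n → ℚ, repl X (List.ofFn y) = Pool.Agent.Y644.QS.inp A b c y := fun _ => rfl
  have h1 : ∀ k ≤ N, (stp X)^[k] ([X.2.2.2], none) =
      (((List.range (k + 1)).map fun k => List.ofFn (x k)).reverse, none) := by
    intro k
    induction k with
    | zero =>
      intro _
      have e : X.2.2.2 = List.ofFn v := rfl
      rw [Function.iterate_zero_apply, e]
      simp [hx0]
    | succ k ih =>
      intro hk
      rw [Function.iterate_succ_apply', ih (by omega)]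
      unfold stp
      have e : ((((List.range (k + 1)).map fun k => List.ofFn (x k)).reverse).head?.getD []) =
          List.ofFn (x k) := by
        rw [List.range_succ, List.map_append, List.reverse_append]
        simp
      simp only [Option.elim_none]
      rw [e, hrepl, nxtL_inp, hq k (by omega), Sum.map_inl, Sum.elim_inl]
      congr 1
      rw [List.range_succ (n := k + 1), List.map_append, List.reverse_append]
      simp
  have h2 : (stp X)^[N + 1] ([X.2.2.2], none) =
      (((List.range (N + 1)).map fun k => List.ofFn (x k)).reverse, some (d.map List.ofFn)) := by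
    rw [Function.iterate_succ_apply', h1 N le_rfl]
    unfold stp
    have e : ((((List.range (N + 1)).map fun k => List.ofFn (x k)).reverse).head?.getD []) =
        List.ofFn (x N) := by
      rw [List.range_succ, List.map_append, List.reverse_append]
      simp
    simp only [Option.elim_none]
    rw [e, hrepl, nxtL_inp, hr, Sum.map_inr, Sum.elim_inr]
  have h3 : ∀ k, (stp X)^[k + (N + 1)] ([X.2.2.2], none) =
      (((List.range (N + 1)).map fun k => List.ofFn (x k)).reverse, some (d.map List.ofFn)) := by
    intro k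
    induction k with
    | zero => rw [Nat.zero_add]; exact h2
    | succ k ih =>
      rw [show k + 1 + (N + 1) = (k + (N + 1)) + 1 by omega, Function.iterate_succ_apply', ih]
      rfl
  obtain ⟨k, rfl⟩ := Nat.exists_eq_add_of_le' hK
  rw [h3]
  unfold outS
  simp

theorem polyTime_nxt : PolyTime fun s => bits (nxtB s) := polyTime_bits poly_nxtB

theorem polyTime_run (e : ℕ) : PolyTime fun s => bits (runB s ((s.length + 1) ^ (e + 1))) :=
  polyTime_bits (poly_runB Poly.id (UPoly_pow (by fun_prop) _))

end Pool.Agent.NPC.X239CV
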